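import Pool.Agent.N656.MH.Stm

set_option autoImplicit false

namespace Pool.Agent.N706.MH

open Filter MeasureTheory Set Metric Topology Pool.Agent.N656.MH

lemma dn_le (x : ℝ) (z : ℤ) : dn x ≤ |x - z| := round_le x z

lemma dn_nonneg (x : ℝ) : 0 ≤ dn x := abs_nonneg _

/-- the rational multiples of `n ^ (-α)` -/
def s (α : ℝ) (n : ℕ) : Set ℝ := range fun k : ℤ => (k : ℝ) / (n : ℝ) ^ α

lemma mem_thick {α c β : ℝ} {n : ℕ} (hn : 1 ≤ n) :
    β ∈ thickening (c * (1 / ((n : ℝ) * (n : ℝ) ^ α))) (s α n) ↔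
      (n : ℝ) * dn (β * (n : ℝ) ^ α) < c := by
  have hn' : (0 : ℝ) < n := by exact_mod_cast hn
  have ha : (0 : ℝ) < (n : ℝ) ^ α := Real.rpow_pos_of_pos hn' α
  have key : ∀ k : ℤ, dist β ((k : ℝ) / (n : ℝ) ^ α) < c * (1 / ((n : ℝ) * (n : ℝ) ^ α)) ↔
      (n : ℝ) * |β * (n : ℝ) ^ α - k| < c := by
    intro k
    rw [Real.dist_eq]
    have e : β - (k : ℝ) / (n : ℝ) ^ α = (β * (n : ℝ) ^ α - k) / (n : ℝ) ^ α := by
      field_simp
    rw [e, abs_div, abs_of_pos ha, mul_one_div, div_lt_div_iff₀ ha (by positivity)]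
    constructor
    · intro h
      have h2 : ((n : ℝ) * |β * (n : ℝ) ^ α - k|) * (n : ℝ) ^ α < c * (n : ℝ) ^ α := by
        nlinarith
      exact lt_of_mul_lt_mul_right h2 ha.le
    · intro h
      have h2 := mul_lt_mul_of_pos_right h ha
      nlinarith
  rw [mem_thickening_iff]
  constructor
  · rintro ⟨z, ⟨k, rfl⟩, hk⟩
    have h1 := (key k).1 hk
    have h2 := mul_le_mul_of_nonneg_left (dn_le (β * (n : ℝ) ^ α) k) hn'.le
    linarith
  · intro h
    exact ⟨_, ⟨round (β * (n : ℝ) ^ α), rfl⟩, (key _).2 h⟩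

lemma tend {α : ℝ} (hα : 1 ≤ α) :
    Tendsto (fun n : ℕ => 1 / ((n : ℝ) * (n : ℝ) ^ α)) atTop (𝓝 0) := by
  have h1 : Tendsto (fun n : ℕ => ((n : ℝ) * (n : ℝ) ^ α)) atTop atTop := by
    apply tendsto_atTop_mono' atTop (f₁ := fun n : ℕ => (n : ℝ)) _ tendsto_natCast_atTop_atTop
    filter_upwards [eventually_ge_atTop 1] with n hn
    have hn' : (1 : ℝ) ≤ n := by exact_mod_cast hn
    have : (1 : ℝ) ≤ (n : ℝ) ^ α := Real.one_le_rpow hn' (by linarith)
    nlinarith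
  simp only [one_div]
  exact h1.inv_tendsto_atTop

lemma mem_ls {α c β : ℝ} :
    β ∈ (blimsup (fun n : ℕ => thickening (c * (1 / ((n : ℝ) * (n : ℝ) ^ α))) (s α n)) atTop
      (fun _ => True) : Set ℝ) ↔ ∃ᶠ n : ℕ in atTop, (n : ℝ) * dn (β * (n : ℝ) ^ α) < c := by
  rw [blimsup_true, mem_limsup_iff_frequently_mem]
  constructor
  · intro h
    refine (h.and_eventually (eventually_ge_atTop 1)).mono fun n hn => (mem_thick hn.2).1 hn.1
  · intro h
    refine (h.and_eventually (eventually_ge_atTop 1)).mono fun n hn => (mem_thick hn.2).2 hn.1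

theorem cas : S_CAS := by
  intro α hα
  have h : ∀ j : ℕ, ∀ᵐ β : ℝ, (∃ᶠ n : ℕ in atTop, (n : ℝ) * dn (β * (n : ℝ) ^ α) < 1) →
      ∃ᶠ n : ℕ in atTop, (n : ℝ) * dn (β * (n : ℝ) ^ α) < 1 / ((j : ℝ) + 1) := by
    intro j
    have hj : (0 : ℝ) < 1 / ((j : ℝ) + 1) := by positivity
    have h1 := blimsup_thickening_mul_ae_eq (volume : Measure ℝ) (fun _ => True) (s α) hj
      (fun n : ℕ => 1 / ((n : ℝ) * (n : ℝ) ^ α)) (tend hα)
    filter_upwards [h1.mem_iff] with β hβ h2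
    rw [mem_ls] at hβ
    apply hβ.2
    have h3 := (mem_ls (α := α) (c := 1) (β := β)).2 h2
    simpa only [one_mul] using h3
  rw [← ae_all_iff] at h
  filter_upwards [h] with β hβ h1 c hc
  obtain ⟨j, hj⟩ := exists_nat_one_div_lt hc
  exact (hβ j h1).mono fun n hn => hn.trans hj

end Pool.Agent.N706.MH
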