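import Pool.Agent.N656.MH.Stm

set_option autoImplicit false

namespace Pool.Agent.N706.MH

open Filter MeasureTheory Set Metric Topology Pool.Agent.N656.MH

lemma dn_le' (x : ℝ) (z : ℤ) : dn x ≤ |x - z| := round_le x z

lemma dn_neg (x : ℝ) : dn (-x) = dn x := by
  have h : ∀ y : ℝ, dn (-y) ≤ dn y := by
    intro y
    refine (dn_le' (-y) (-round y)).trans (le_of_eq ?_)
    unfold dn
    rw [← abs_neg]
    congr 1
    push_cast
    ring
  apply le_antisymm (h x)
  have := h (-x)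
  rwa [neg_neg] at this

lemma dn_mul (j : ℕ) (x : ℝ) : dn ((j : ℝ) * x) ≤ j * dn x := by
  have h := dn_le' ((j : ℝ) * x) ((j : ℤ) * round x)
  refine h.trans (le_of_eq ?_)
  unfold dn
  push_cast
  rw [← mul_sub, abs_mul, abs_of_nonneg (Nat.cast_nonneg j)]

lemma io_neg {α β : ℝ} (h : Io α β) : Io α (-β) := by
  intro c hc
  refine (h c hc).mono fun n hn => ?_
  rwa [neg_mul, dn_neg]

lemma io_mul {α β : ℝ} {j : ℕ} (hj : 1 ≤ j) (h : Io α β) : Io α ((j : ℝ) * β) := by
  intro c hc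
  have hj' : (0 : ℝ) < j := by exact_mod_cast hj
  refine (h (c / j) (by positivity)).mono fun n hn => ?_
  rw [mul_assoc]
  have h1 := mul_le_mul_of_nonneg_left (dn_mul j (β * (n : ℝ) ^ α)) (Nat.cast_nonneg (α := ℝ) n)
  rw [lt_div_iff₀ hj'] at hn
  nlinarith

lemma io_div {α β : ℝ} {s : ℕ} (hs : 1 ≤ s) (h : Io α β) : Io α (β / (s : ℝ) ^ α) := by
  intro c hc
  have hs' : (0 : ℝ) < s := by exact_mod_cast hs
  have ha : (0 : ℝ) < (s : ℝ) ^ α := Real.rpow_pos_of_pos hs' α
  have h1 := h (c / s) (by positivity)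
  rw [frequently_atTop] at h1 ⊢
  intro N
  obtain ⟨n, hn, hn'⟩ := h1 N
  refine ⟨s * n, hn.trans (Nat.le_mul_of_pos_left n hs), ?_⟩
  have e : β / (s : ℝ) ^ α * ((s * n : ℕ) : ℝ) ^ α = β * (n : ℝ) ^ α := by
    push_cast
    rw [Real.mul_rpow hs'.le (Nat.cast_nonneg n)]
    field_simp
  rw [e]
  rw [lt_div_iff₀ hs'] at hn'
  push_cast
  nlinarith

lemma io_scale {α β : ℝ} {j s : ℕ} (hj : 1 ≤ j) (hs : 1 ≤ s) (h : Io α β) :
    Io α ((j : ℝ) / (s : ℝ) ^ α * β) := by
  have := io_mul hj (io_div hs h)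
  rwa [show (j : ℝ) * (β / (s : ℝ) ^ α) = (j : ℝ) / (s : ℝ) ^ α * β by ring] at this

lemma meas_dn : Measurable dn := by
  unfold dn
  have h : (fun x : ℝ => |x - (round x : ℝ)|) = fun x : ℝ => |x - ((⌊x + 1 / 2⌋ : ℤ) : ℝ)| := by
    funext x
    rw [round_eq]
  rw [h]
  have h2 : Measurable fun x : ℝ => ((⌊x + 1 / 2⌋ : ℤ) : ℝ) :=
    measurable_from_top.comp (Int.measurable_floor.comp (measurable_id.add_const _))
  exact (measurable_id.sub h2).abs

lemma meas_io (α : ℝ) : MeasurableSet {β : ℝ | Io α β} := by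
  have e : {β : ℝ | Io α β} = ⋂ j : ℕ, ⋂ N : ℕ, ⋃ n : ℕ, {β : ℝ | N ≤ n ∧
      (n : ℝ) * dn (β * (n : ℝ) ^ α) < 1 / ((j : ℝ) + 1)} := by
    ext β
    simp only [mem_iInter, mem_iUnion, mem_ofPred_eq]
    constructor
    · intro h j N
      have h1 := h (1 / ((j : ℝ) + 1)) (by positivity)
      rw [frequently_atTop] at h1
      obtain ⟨n, hn, h2⟩ := h1 N
      exact ⟨n, hn, h2⟩
    · intro h c hc
      obtain ⟨j, hj⟩ := exists_nat_one_div_lt hc
      rw [frequently_atTop]
      intro N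
      obtain ⟨n, hn, h2⟩ := h j N
      exact ⟨n, hn, h2.trans hj⟩
  rw [e]
  refine MeasurableSet.iInter fun j => MeasurableSet.iInter fun N => MeasurableSet.iUnion fun n => ?_
  by_cases hn : N ≤ n
  · simp only [hn, true_and]
    exact measurableSet_lt ((meas_dn.comp (measurable_id.mul_const _)).const_mul _)
      measurable_const
  · simp [hn]

lemma vol_ball (x : ℝ) {r : ℝ} (hr : 0 ≤ r) : volume.real (closedBall x r) = 2 * r := by
  rw [Measure.real, Real.volume_closedBall, ENNReal.toReal_ofReal (by positivity)]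

lemma dens {S : Set ℝ} (hS : MeasurableSet S) (h0 : volume S ≠ 0) :
    ∃ x ∈ S, ∃ r₀ : ℝ, 0 < r₀ ∧ ∀ r : ℝ, 0 < r → r < r₀ →
      (9 / 10 : ℝ) * (2 * r) ≤ volume.real (S ∩ closedBall x r) := by
  have h1 := Besicovitch.ae_tendsto_measure_inter_div (volume : Measure ℝ) S
  have h2 := ae_restrict_mem (μ := (volume : Measure ℝ)) hS
  have : (ae ((volume : Measure ℝ).restrict S)).NeBot := ae_restrict_neBot.2 h0
  obtain ⟨x, h3, hx⟩ := (h1.and h2).exists
  refine ⟨x, hx, ?_⟩
  have h4 : ∀ᶠ r in 𝓝[>] (0 : ℝ), ENNReal.ofReal (9 / 10) <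
      volume (S ∩ closedBall x r) / volume (closedBall x r) := by
    refine h3.eventually (lt_mem_nhds ?_)
    rw [← ENNReal.ofReal_one]
    exact (ENNReal.ofReal_lt_ofReal_iff (by norm_num)).2 (by norm_num)
  rw [eventually_nhdsWithin_iff, Metric.eventually_nhds_iff] at h4
  obtain ⟨r₀, hr₀, h5⟩ := h4
  refine ⟨r₀, hr₀, fun r hr hr' => ?_⟩
  have h6 := h5 (y := r) (by rw [Real.dist_eq, sub_zero, abs_of_pos hr]; exact hr') hr
  have h7 : volume (closedBall x r) = ENNReal.ofReal (2 * r) := Real.volume_closedBall x r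
  rw [h7] at h6
  have h8 : ENNReal.ofReal (2 * r) ≠ 0 := by
    rw [Ne, ENNReal.ofReal_eq_zero]
    push Not
    positivity
  have h9 : ENNReal.ofReal (9 / 10) * ENNReal.ofReal (2 * r) ≤ volume (S ∩ closedBall x r) := by
    have := h6.le
    rwa [ENNReal.le_div_iff_mul_le (Or.inl h8) (Or.inl ENNReal.ofReal_ne_top)] at this
  rw [← ENNReal.ofReal_mul (by norm_num)] at h9
  have h10 : volume (S ∩ closedBall x r) ≠ ⊤ :=
    measure_ne_top_of_subset inter_subset_right (by rw [h7]; exact ENNReal.ofReal_ne_top)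
  exact (ENNReal.ofReal_le_iff_le_toReal h10).1 h9

/-- approximation of a positive real by `j / s ^ α` -/
lemma approx {α t₀ η : ℝ} (hα : 1 ≤ α) (ht : 0 < t₀) (hη : 0 < η) :
    ∃ j s : ℕ, 1 ≤ j ∧ 1 ≤ s ∧ t₀ ≤ (j : ℝ) / (s : ℝ) ^ α ∧ (j : ℝ) / (s : ℝ) ^ α < t₀ + η := by
  obtain ⟨s, hs⟩ := exists_nat_gt (1 / η)
  have hs0 : (0 : ℝ) < s := lt_trans (by positivity) hs
  have hs1 : 1 ≤ s := by exact_mod_cast hs0
  have hs1' : (1 : ℝ) ≤ s := by exact_mod_cast hs1
  have h1 : (s : ℝ) ≤ (s : ℝ) ^ α := by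
    conv_lhs => rw [← Real.rpow_one (s : ℝ)]
    exact Real.rpow_le_rpow_of_exponent_le hs1' hα
  have ha : (0 : ℝ) < (s : ℝ) ^ α := lt_of_lt_of_le hs0 h1
  have h2 : 1 / η < (s : ℝ) ^ α := lt_of_lt_of_le hs h1
  refine ⟨⌈t₀ * (s : ℝ) ^ α⌉₊, s, ?_, hs1, ?_, ?_⟩
  · exact Nat.one_le_ceil_iff.2 (by positivity)
  · rw [le_div_iff₀ ha]
    exact Nat.le_ceil _
  · rw [div_lt_iff₀ ha]
    have h3 := Nat.ceil_lt_add_one (a := t₀ * (s : ℝ) ^ α) (by positivity)
    rw [div_lt_iff₀ hη] at h2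
    nlinarith

theorem zero : S_ZERO := by
  intro α hα hpos
  set P : Set ℝ := {β : ℝ | 0 < β ∧ Io α β} with hP
  set H : Set ℝ := {β : ℝ | 0 < β ∧ ¬ Io α β} with hH
  have mP : MeasurableSet P := measurableSet_Ioi.inter (meas_io α)
  have mH : MeasurableSet H := measurableSet_Ioi.inter (meas_io α).compl
  have hH0 : volume H = 0 := by
    by_contra hH0
    obtain ⟨g, hg, r₁, hr₁, hg'⟩ := dens mP hpos
    obtain ⟨h, hh, r₂, hr₂, hh'⟩ := dens mH hH0
    have hg0 : 0 < g := hg.1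
    have hh0 : 0 < h := hh.1
    set t₀ : ℝ := h / g with ht₀
    have ht0 : 0 < t₀ := div_pos hh0 hg0
    have htg : t₀ * g = h := by rw [ht₀]; field_simp
    set r : ℝ := min r₁ (r₂ / (4 * t₀)) / 2 with hr
    have hm : 0 < min r₁ (r₂ / (4 * t₀)) := lt_min hr₁ (by positivity)
    have hr0 : 0 < r := by rw [hr]; linarith
    have hrr1 : r < r₁ := by
      have := min_le_left r₁ (r₂ / (4 * t₀))
      rw [hr]; linarith
    have hrr2 : 4 * t₀ * r < r₂ := by
      have h1 := min_le_right r₁ (r₂ / (4 * t₀))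
      have h2 : r < r₂ / (4 * t₀) := by rw [hr]; linarith
      rw [lt_div_iff₀ (by positivity)] at h2
      linarith
    obtain ⟨j, s, hj, hs, h1, h2⟩ := approx (α := α) (t₀ := t₀) (η := min t₀ (t₀ * r / g)) hα ht0
      (lt_min ht0 (by positivity))
    set t : ℝ := (j : ℝ) / (s : ℝ) ^ α with ht
    have ht' : 0 < t := lt_of_lt_of_le ht0 h1
    have h3 : t < 2 * t₀ := by
      have := min_le_left t₀ (t₀ * r / g)
      linarith
    have h4 : t * g - h < t₀ * r := by
      have h5 := min_le_right t₀ (t₀ * r / g)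
      have h6 : t - t₀ < t₀ * r / g := by linarith
      rw [lt_div_iff₀ hg0] at h6
      rw [← htg]
      nlinarith
    have h5 : 0 ≤ t * g - h := by
      rw [← htg]
      nlinarith
    set r' : ℝ := t * r + (t * g - h) with hr'
    have hr'0 : 0 < r' := by positivity
    have hr'1 : r' < 2 * (t * r) := by
      have : t₀ * r ≤ t * r := mul_le_mul_of_nonneg_right h1 hr0.le
      rw [hr']; linarith
    have hr'2 : r' < r₂ := by
      have : t * r < 2 * t₀ * r := mul_lt_mul_of_pos_right h3 hr0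
      linarith
    -- the scaled set
    set A : Set ℝ := (t⁻¹ * ·) ⁻¹' (P ∩ closedBall g r) with hA
    have hAv : volume.real A = t * volume.real (P ∩ closedBall g r) := by
      rw [Measure.real, hA, Real.volume_preimage_mul_left (inv_ne_zero ht'.ne'), inv_inv,
        abs_of_pos ht', ENNReal.toReal_mul, ENNReal.toReal_ofReal ht'.le]
      rfl
    have hAs : A ⊆ closedBall h r' := by
      intro β hβ
      have h6 : |t⁻¹ * β - g| ≤ r := by
        have := hβ.2
        rwa [mem_closedBall, Real.dist_eq] at this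
      rw [mem_closedBall, Real.dist_eq]
      have h7 : β - h = t * (t⁻¹ * β - g) + (t * g - h) := by
        field_simp
        ring
      rw [h7]
      refine (abs_add_le _ _).trans ?_
      rw [abs_mul, abs_of_pos ht', abs_of_nonneg h5, hr']
      have := mul_le_mul_of_nonneg_left h6 ht'.le
      linarith
    have hAG : ∀ β ∈ A, Io α β := by
      intro β hβ
      have h6 := io_scale hj hs hβ.1.2
      rwa [← ht, mul_inv_cancel_left₀ ht'.ne'] at h6
    have hdisj : Disjoint A (H ∩ closedBall h r') := by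
      rw [Set.disjoint_left]
      intro β hβ hβ'
      exact hβ'.1.2 (hAG β hβ)
    have hfin : volume (closedBall h r') ≠ ⊤ := by
      rw [Real.volume_closedBall]; exact ENNReal.ofReal_ne_top
    have h6 : volume.real A + volume.real (H ∩ closedBall h r') ≤ 2 * r' := by
      rw [← vol_ball h hr'0.le]
      rw [← measureReal_union hdisj (mH.inter measurableSet_closedBall)
        (measure_ne_top_of_subset hAs hfin) (measure_ne_top_of_subset inter_subset_right hfin)]
      exact measureReal_mono (union_subset hAs inter_subset_right) hfin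
    have h7 := hg' r hr0 hrr1
    have h8 := hh' r' hr'0 hr'2
    rw [hAv] at h6
    have h9 := mul_le_mul_of_nonneg_left h7 ht'.le
    have h10 : 0 < t * r := by positivity
    nlinarith
  -- negative numbers
  have hN0 : volume {β : ℝ | β < 0 ∧ ¬ Io α β} = 0 := by
    have e : {β : ℝ | β < 0 ∧ ¬ Io α β} = Neg.neg ⁻¹' H := by
      ext β
      simp only [hH, mem_preimage, mem_ofPred_eq, neg_pos]
      refine and_congr_right fun _ => not_congr ⟨fun h => io_neg h, fun h => ?_⟩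
      have := io_neg h
      rwa [neg_neg] at this
    rw [e, Measure.measure_preimage_neg, hH0]
  rw [ae_iff]
  have hsub : {β : ℝ | ¬ Io α β} ⊆ (H ∪ {β : ℝ | β < 0 ∧ ¬ Io α β}) ∪ {0} := by
    intro β hβ
    rcases lt_trichotomy β 0 with h | h | h
    · exact Or.inl (Or.inr ⟨h, hβ⟩)
    · exact Or.inr h
    · exact Or.inl (Or.inl ⟨h, hβ⟩)
  refine measure_mono_null hsub ?_
  rw [measure_union_null_iff, measure_union_null_iff]
  exact ⟨⟨hH0, hN0⟩, Real.volume_singleton⟩

end Pool.Agent.N706.MH
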